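import Mathlib
import Pool.Agent.H984R2.TV

set_option autoImplicit false

namespace Pool.Agent.Results.MP_199736_pr.MonotoneChain

open Finset Matrix
open Pool.Agent.H984R2 (tv tv_eq)

/-- `P t` is the time-`t` transition kernel of a (time-homogeneous) Markov chain on the finite
set `Ω`, the time set `T` being `ℕ` (discrete time) or `ℝ≥0` (continuous time); `P t x y` is the
probability to be in `y` at time `t` when started at `x`. -/
structure IsMarkov {T Ω : Type*} [AddMonoid T] [TopologicalSpace T] [Fintype Ω] [DecidableEq Ω]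
    (P : T → Matrix Ω Ω ℝ) : Prop where
  nonneg : ∀ t x y, 0 ≤ P t x y
  row_sum : ∀ t x, ∑ y, P t x y = 1
  zero : P 0 = 1
  add : ∀ s t, P (s + t) = P s * P t
  continuous : Continuous P

/-- Monotonicity: for every time and every increasing event `A`, the probability of `A` is an
increasing function of the starting state. -/
def IsMonotone {T Ω : Type*} [Preorder Ω] (P : T → Matrix Ω Ω ℝ) : Prop :=
  ∀ (t : T) (x y : Ω), x ≤ y → ∀ A : Finset Ω, IsUpperSet (A : Set Ω) →
    ∑ z ∈ A, P t x z ≤ ∑ z ∈ A, P t y z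

/-- Reversibility with respect to some probability `π`. -/
def IsReversible {T Ω : Type*} [Fintype Ω] (P : T → Matrix Ω Ω ℝ) : Prop :=
  ∃ π : Ω → ℝ, (∀ x, 0 ≤ π x) ∧ ∑ x, π x = 1 ∧ ∀ (t : T) (x y : Ω), π x * P t x y = π y * P t y x

/-- The transition matrix. -/
noncomputable def M : Matrix (Fin 5) (Fin 5) ℝ :=
  !![16/29, 4/29, 4/29, 4/29, 1/29;
     4/29, 16/29, 2/29, 2/29, 5/29;
     4/29, 2/29, 13/29, 5/29, 5/29;
     4/29, 2/29, 5/29, 13/29, 5/29;
     1/29, 5/29, 5/29, 5/29, 13/29]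

theorem M_ge (x y : Fin 5) : 1/29 ≤ M x y := by
  fin_cases x <;> fin_cases y <;> norm_num [M]

theorem M_pos (x y : Fin 5) : 0 < M x y := lt_of_lt_of_le (by norm_num) (M_ge x y)

theorem M_row (x : Fin 5) : ∑ y, M x y = 1 := by
  fin_cases x <;> simp [M, Fin.sum_univ_five] <;> norm_num

theorem M_symm : Mᵀ = M := by
  ext x y
  fin_cases x <;> fin_cases y <;> norm_num [M, Matrix.transpose_apply]

theorem M_mono (g : Fin 5 → ℝ) (hg : Monotone g) : Monotone (M *ᵥ g) := by
  have h01 : g 0 ≤ g 1 := hg (by decide)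
  have h12 : g 1 ≤ g 2 := hg (by decide)
  have h23 : g 2 ≤ g 3 := hg (by decide)
  have h34 : g 3 ≤ g 4 := hg (by decide)
  refine Fin.monotone_iff_le_succ.mpr fun i => ?_
  fin_cases i <;> simp [M, Matrix.mulVec, dotProduct, Fin.sum_univ_five] <;> linarith

theorem pow_nonneg' (t : ℕ) (x y : Fin 5) : 0 ≤ (M ^ t) x y := by
  induction t generalizing x y with
  | zero =>
    rw [pow_zero, Matrix.one_apply]
    split_ifs <;> norm_num
  | succ t ih =>
    rw [pow_succ, Matrix.mul_apply]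
    exact Finset.sum_nonneg fun z _ => mul_nonneg (ih x z) (M_pos z y).le

theorem pow_row (t : ℕ) (x : Fin 5) : ∑ y, (M ^ t) x y = 1 := by
  induction t generalizing x with
  | zero => simp [Matrix.one_apply]
  | succ t ih =>
    simp_rw [pow_succ, Matrix.mul_apply]
    rw [Finset.sum_comm]
    simp_rw [← Finset.mul_sum, M_row, mul_one]
    exact ih x

theorem pow_mono (t : ℕ) (g : Fin 5 → ℝ) (hg : Monotone g) : Monotone ((M ^ t) *ᵥ g) := by
  induction t with
  | zero => simpa using hg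
  | succ t ih =>
    rw [pow_succ', ← Matrix.mulVec_mulVec]
    exact M_mono _ ih

theorem sum_eq_mulVec (K : Matrix (Fin 5) (Fin 5) ℝ) (A : Finset (Fin 5)) (x : Fin 5) :
    ∑ z ∈ A, K x z = (K *ᵥ fun z => if z ∈ A then (1 : ℝ) else 0) x := by
  simp [Matrix.mulVec, dotProduct]

theorem indicator_mono (A : Finset (Fin 5)) (hA : IsUpperSet (A : Set (Fin 5))) :
    Monotone (fun z => if z ∈ A then (1 : ℝ) else 0) := by
  intro x y hxy
  by_cases hx : x ∈ A
  · have hy : y ∈ A := hA hxy hx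
    simp [hx, hy]
  · simp only [hx, if_false]
    split_ifs <;> norm_num

theorem pow_monotone (t : ℕ) (x y : Fin 5) (hxy : x ≤ y) (A : Finset (Fin 5))
    (hA : IsUpperSet (A : Set (Fin 5))) : ∑ z ∈ A, (M ^ t) x z ≤ ∑ z ∈ A, (M ^ t) y z := by
  rw [sum_eq_mulVec, sum_eq_mulVec]
  exact pow_mono t _ (indicator_mono A hA) hxy

theorem pow_symm (t : ℕ) (x y : Fin 5) : (M ^ t) x y = (M ^ t) y x := by
  have : ((M ^ t)ᵀ) = M ^ t := by rw [Matrix.transpose_pow, M_symm]
  calc (M ^ t) x y = ((M ^ t)ᵀ) y x := rfl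
    _ = (M ^ t) y x := by rw [this]

theorem pow_pos' (t : ℕ) (ht : 0 < t) (x y : Fin 5) : 0 < (M ^ t) x y := by
  obtain ⟨s, rfl⟩ : ∃ s, t = s + 1 := ⟨t - 1, by omega⟩
  rw [pow_succ, Matrix.mul_apply]
  have h1 : ∑ z, (M ^ s) x z * (1/29) ≤ ∑ z, (M ^ s) x z * M z y :=
    Finset.sum_le_sum fun z _ => mul_le_mul_of_nonneg_left (M_ge z y) (pow_nonneg' s x z)
  rw [← Finset.sum_mul, pow_row] at h1
  linarith

/-! ### discrete time -/

theorem discrete : ∃ P : ℕ → Matrix (Fin 5) (Fin 5) ℝ,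
    IsMarkov P ∧ IsMonotone P ∧ IsReversible P ∧ (∀ t, 0 < t → ∀ x y, 0 < P t x y) ∧
    ∃ t x y, tv (P t ⊤) (P t ⊥) < tv (P t x) (P t y) := by
  refine ⟨fun t => M ^ t, ⟨pow_nonneg', pow_row, pow_zero M, fun s t => pow_add M s t,
    continuous_of_discreteTopology⟩, pow_monotone, ⟨fun _ => 1/5, fun _ => by norm_num, ?_, ?_⟩,
    pow_pos', 1, 0, 1, ?_⟩
  · norm_num [Fin.sum_univ_five]
  · intro t x y
    change _ * (M ^ t) x y = _ * (M ^ t) y x
    rw [pow_symm t x y]
  · simp only [pow_one]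
    have htop : (⊤ : Fin 5) = 4 := rfl
    have hbot : (⊥ : Fin 5) = 0 := rfl
    rw [htop, hbot, tv_eq _ _ (by rw [M_row, M_row]), tv_eq _ _ (by rw [M_row, M_row])]
    simp [Fin.sum_univ_five, M]
    norm_num [abs_of_pos, abs_of_neg, abs_div]

/-! ### continuous time -/

/-- The kernel of the rate-one continuous-time version of the chain. -/
noncomputable def K (t : NNReal) : Matrix (Fin 5) (Fin 5) ℝ :=
  Real.exp (-(t : ℝ)) • NormedSpace.exp ((t : ℝ) • M)

set_option backward.isDefEq.respectTransparency false in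
theorem exp_hasSum (t : ℝ) :
    HasSum (fun n : ℕ => ((n.factorial : ℝ)⁻¹) • (t • M) ^ n) (NormedSpace.exp (t • M)) := by
  open scoped Matrix.Norms.Operator in
  exact NormedSpace.exp_series_hasSum_exp' (𝕂 := ℝ) (t • M)

theorem K_hasSum (t : NNReal) (x y : Fin 5) :
    HasSum (fun n : ℕ => Real.exp (-(t : ℝ)) * ((t : ℝ) ^ n / n.factorial) * (M ^ n) x y)
      (K t x y) := by
  have h1 := (Pi.hasSum.mp (Pi.hasSum.mp (exp_hasSum t) x) y).mul_left (Real.exp (-(t : ℝ)))
  have e : (fun n : ℕ => Real.exp (-(t : ℝ)) * ((t : ℝ) ^ n / n.factorial) * (M ^ n) x y) =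
      fun n : ℕ => Real.exp (-(t : ℝ)) * (((n.factorial : ℝ)⁻¹ • ((t : ℝ) • M) ^ n) x y) := by
    funext n
    rw [smul_pow]
    simp only [Matrix.smul_apply, smul_eq_mul]
    ring
  rw [e]
  exact h1

theorem poisson_hasSum (t : ℝ) :
    HasSum (fun n : ℕ => Real.exp (-t) * (t ^ n / n.factorial)) 1 := by
  have h := (NormedSpace.expSeries_div_hasSum_exp t).mul_left (Real.exp (-t))
  rw [← Real.exp_eq_exp_ℝ, ← Real.exp_add, neg_add_cancel, Real.exp_zero] at h
  exact h

theorem K_sum_hasSum (t : NNReal) (x : Fin 5) (A : Finset (Fin 5)) :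
    HasSum (fun n : ℕ => Real.exp (-(t : ℝ)) * ((t : ℝ) ^ n / n.factorial) * ∑ y ∈ A, (M ^ n) x y)
      (∑ y ∈ A, K t x y) := by
  have := hasSum_sum (f := fun (y : Fin 5) (n : ℕ) =>
    Real.exp (-(t : ℝ)) * ((t : ℝ) ^ n / n.factorial) * (M ^ n) x y) (a := fun y => K t x y)
    (s := A) (fun y _ => K_hasSum t x y)
  simp only [Finset.mul_sum]
  exact this

theorem weight_nonneg (t : NNReal) (n : ℕ) :
    0 ≤ Real.exp (-(t : ℝ)) * ((t : ℝ) ^ n / n.factorial) := by
  have := t.coe_nonneg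
  positivity

theorem K_nonneg (t : NNReal) (x y : Fin 5) : 0 ≤ K t x y :=
  (K_hasSum t x y).nonneg fun n => mul_nonneg (weight_nonneg t n) (pow_nonneg' n x y)

theorem K_row (t : NNReal) (x : Fin 5) : ∑ y, K t x y = 1 := by
  have h := K_sum_hasSum t x univ
  simp only [pow_row, mul_one] at h
  exact h.unique (poisson_hasSum t)

theorem K_mono (t : NNReal) (x y : Fin 5) (hxy : x ≤ y) (A : Finset (Fin 5))
    (hA : IsUpperSet (A : Set (Fin 5))) : ∑ z ∈ A, K t x z ≤ ∑ z ∈ A, K t y z :=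
  hasSum_le (fun n => mul_le_mul_of_nonneg_left (pow_monotone n x y hxy A hA)
    (weight_nonneg t n)) (K_sum_hasSum t x A) (K_sum_hasSum t y A)

theorem K_symm (t : NNReal) (x y : Fin 5) : K t x y = K t y x := by
  refine (K_hasSum t x y).unique ?_
  have := K_hasSum t y x
  simp only [pow_symm _ y x] at this
  exact this

theorem K_pos (t : NNReal) (ht : 0 < t) (x y : Fin 5) : 0 < K t x y := by
  have ht' : (0 : ℝ) < t := ht
  have h1 := le_hasSum (K_hasSum t x y) 1 fun n _ =>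
    mul_nonneg (weight_nonneg t n) (pow_nonneg' n x y)
  refine lt_of_lt_of_le ?_ h1
  have := M_pos x y
  simp only [pow_one, Nat.factorial_one, Nat.cast_one, div_one]
  positivity

theorem K_add (s t : NNReal) : K (s + t) = K s * K t := by
  unfold K
  have hc : Commute ((s : ℝ) • M) ((t : ℝ) • M) :=
    ((Commute.refl M).smul_left _).smul_right _
  rw [NNReal.coe_add, add_smul, Matrix.exp_add_of_commute _ _ hc, neg_add, Real.exp_add,
    Matrix.smul_mul, Matrix.mul_smul, smul_smul]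

set_option backward.isDefEq.respectTransparency false in
theorem exp_cont : Continuous (fun t : ℝ => NormedSpace.exp (t • M)) := by
  open scoped Matrix.Norms.Operator in
  exact (NormedSpace.exp_continuous (𝔸 := Matrix (Fin 5) (Fin 5) ℝ)).comp
    (continuous_id.smul continuous_const)

theorem K_cont : Continuous K := by
  have h1 : Continuous (fun t : NNReal => Real.exp (-(t : ℝ))) := by fun_prop
  exact h1.smul (exp_cont.comp NNReal.continuous_coe)

theorem pow_le_one' (n : ℕ) (x y : Fin 5) : (M ^ n) x y ≤ 1 := by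
  rw [← pow_row n x]
  exact Finset.single_le_sum (f := fun y => (M ^ n) x y) (fun z _ => pow_nonneg' n x z)
    (Finset.mem_univ y)

/-- First-order expansion of the kernel with a uniform bound on the remainder. -/
theorem K_expand (t : NNReal) (x y : Fin 5) :
    ∃ r, 0 ≤ r ∧ r ≤ 1 - Real.exp (-(t : ℝ)) * (1 + t) ∧
      K t x y = Real.exp (-(t : ℝ)) * ((1 : Matrix (Fin 5) (Fin 5) ℝ) x y + t * M x y) + r := by
  have h1 := (hasSum_nat_add_iff' 2).mpr (K_hasSum t x y)
  have h2 := (hasSum_nat_add_iff' 2).mpr (poisson_hasSum t)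
  refine ⟨_, h1.nonneg fun n => mul_nonneg (weight_nonneg t _) (pow_nonneg' _ x y), ?_, ?_⟩
  · refine le_trans (hasSum_le (fun n => ?_) h1 h2) (le_of_eq ?_)
    · exact mul_le_of_le_one_right (weight_nonneg t _) (pow_le_one' _ x y)
    · simp [Finset.sum_range_succ]
      ring
  · simp [Finset.sum_range_succ]
    ring

theorem key (τ : NNReal) (hτ : (τ : ℝ) = 1/1000) :
    tv (K τ 4) (K τ 0) < tv (K τ 0) (K τ 1) := by
  rw [tv_eq _ _ (by rw [K_row, K_row]), tv_eq _ _ (by rw [K_row, K_row])]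
  have hE1 : 1 - 1/1000 ≤ Real.exp (-(1/1000 : ℝ)) := by
    have := Real.add_one_le_exp (-(1/1000 : ℝ)); linarith
  have hE2 : Real.exp (-(1/1000 : ℝ)) ≤ 1 := Real.exp_le_one_iff.mpr (by norm_num)
  have h := K_expand τ
  rw [hτ] at h
  generalize Real.exp (-(1/1000 : ℝ)) = E at hE1 hE2 h
  obtain ⟨r00, p00, q00, e00⟩ := h 0 0
  obtain ⟨r01, p01, q01, e01⟩ := h 0 1
  obtain ⟨r02, p02, q02, e02⟩ := h 0 2
  obtain ⟨r03, p03, q03, e03⟩ := h 0 3
  obtain ⟨r04, p04, q04, e04⟩ := h 0 4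
  obtain ⟨r10, p10, q10, e10⟩ := h 1 0
  obtain ⟨r11, p11, q11, e11⟩ := h 1 1
  obtain ⟨r12, p12, q12, e12⟩ := h 1 2
  obtain ⟨r13, p13, q13, e13⟩ := h 1 3
  obtain ⟨r14, p14, q14, e14⟩ := h 1 4
  obtain ⟨r40, p40, q40, e40⟩ := h 4 0
  obtain ⟨r41, p41, q41, e41⟩ := h 4 1
  obtain ⟨r42, p42, q42, e42⟩ := h 4 2
  obtain ⟨r43, p43, q43, e43⟩ := h 4 3
  obtain ⟨r44, p44, q44, e44⟩ := h 4 4
  simp [M] at e00 e01 e02 e03 e04 e10 e11 e12 e13 e14 e40 e41 e42 e43 e44
  have b0 : |K τ 4 0 - K τ 0 0| ≤ E * (1 + 15/29000) + (1 - E * (1 + 1/1000)) := by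
    rw [abs_le]; constructor <;> linarith
  have b1 : |K τ 4 1 - K τ 0 1| ≤ E * (1/29000) + (1 - E * (1 + 1/1000)) := by
    rw [abs_le]; constructor <;> linarith
  have b2 : |K τ 4 2 - K τ 0 2| ≤ E * (1/29000) + (1 - E * (1 + 1/1000)) := by
    rw [abs_le]; constructor <;> linarith
  have b3 : |K τ 4 3 - K τ 0 3| ≤ E * (1/29000) + (1 - E * (1 + 1/1000)) := by
    rw [abs_le]; constructor <;> linarith
  have b4 : |K τ 4 4 - K τ 0 4| ≤ E * (1 + 12/29000) + (1 - E * (1 + 1/1000)) := by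
    rw [abs_le]; constructor <;> linarith
  have c0 : E * (1 + 12/29000) - (1 - E * (1 + 1/1000)) ≤ |K τ 0 0 - K τ 1 0| :=
    le_trans (by linarith) (le_abs_self _)
  have c1 : E * (1 + 12/29000) - (1 - E * (1 + 1/1000)) ≤ |K τ 0 1 - K τ 1 1| :=
    le_trans (by linarith) (neg_le_abs _)
  have c2 : E * (2/29000) - (1 - E * (1 + 1/1000)) ≤ |K τ 0 2 - K τ 1 2| :=
    le_trans (by linarith) (le_abs_self _)
  have c3 : E * (2/29000) - (1 - E * (1 + 1/1000)) ≤ |K τ 0 3 - K τ 1 3| :=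
    le_trans (by linarith) (le_abs_self _)
  have c4 : E * (4/29000) - (1 - E * (1 + 1/1000)) ≤ |K τ 0 4 - K τ 1 4| :=
    le_trans (by linarith) (neg_le_abs _)
  rw [Fin.sum_univ_five, Fin.sum_univ_five]
  linarith

/-- The counterexample in continuous time. -/
theorem continuous_time : ∃ P : NNReal → Matrix (Fin 5) (Fin 5) ℝ,
    IsMarkov P ∧ IsMonotone P ∧ IsReversible P ∧ (∀ t, 0 < t → ∀ x y, 0 < P t x y) ∧
    ∃ t x y, tv (P t ⊤) (P t ⊥) < tv (P t x) (P t y) := by
  refine ⟨K, ⟨K_nonneg, K_row, ?_, K_add, K_cont⟩, K_mono, ⟨fun _ => 1/5, fun _ => by norm_num,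
    ?_, ?_⟩, K_pos, 1/1000, 0, 1, key _ (by norm_num)⟩
  · simp [K, NormedSpace.exp_zero]
  · norm_num [Fin.sum_univ_five]
  · intro t x y
    rw [K_symm t x y]

/-- There are monotone reversible Markov chains (in discrete and in continuous time) on the totally
ordered set `0 < 1 < 2 < 3 < 4`, with all transition probabilities positive at positive times, for
which at some time the total variation distance between the laws started from two states `x`, `y`
is strictly larger than the one between the laws started from the maximum and the minimum. -/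
theorem result :
    (∃ P : ℕ → Matrix (Fin 5) (Fin 5) ℝ,
      IsMarkov P ∧ IsMonotone P ∧ IsReversible P ∧ (∀ t, 0 < t → ∀ x y, 0 < P t x y) ∧
      ∃ t x y, tv (P t ⊤) (P t ⊥) < tv (P t x) (P t y)) ∧
    (∃ P : NNReal → Matrix (Fin 5) (Fin 5) ℝ,
      IsMarkov P ∧ IsMonotone P ∧ IsReversible P ∧ (∀ t, 0 < t → ∀ x y, 0 < P t x y) ∧
      ∃ t x y, tv (P t ⊤) (P t ⊥) < tv (P t x) (P t y)) :=
  ⟨discrete, continuous_time⟩

end Pool.Agent.Results.MP_199736_pr.MonotoneChain
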