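import Mathlib

/-!
# MP_199736_pr, Q2: extremal starting pairs for total variation in monotone reversible chains

Q2 asks whether, for every monotone reversible Markov chain on a finite partially ordered set
with least element `⊥` and greatest element `⊤`, and for every time `t`,
`max_{x,y} ‖P^t(x,·) - P^t(y,·)‖_TV = ‖P^t(⊤,·) - P^t(⊥,·)‖_TV`.

We refute this, both in discrete time and in continuous time, already for a totally ordered
state space with four points (and an irreducible chain).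
-/

set_option autoImplicit false

open scoped BigOperators NNReal
open Matrix

namespace Pool.Agent.Results.MP_199736_pr.Q2Counterexample

section Defs

variable {Ω : Type} [Fintype Ω]

/-- `K(x, A) = ∑_{z ∈ A} K(x, z)`: the mass that the row `x` of the kernel `K` gives to `A`. -/
def prob (K : Matrix Ω Ω ℝ) (x : Ω) (A : Finset Ω) : ℝ := ∑ z ∈ A, K x z

/-- The total variation distance `‖K(x,·) - K(y,·)‖_TV = max_{A ⊆ Ω} |K(x,A) - K(y,A)|`. -/
noncomputable def tv (K : Matrix Ω Ω ℝ) (x y : Ω) : ℝ :=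
  (Finset.univ : Finset (Finset Ω)).sup' ⟨∅, Finset.mem_univ _⟩
    fun A => |prob K x A - prob K y A|

/-- `K` is a transition kernel: nonnegative entries and all row sums equal to one. -/
def IsKernel (K : Matrix Ω Ω ℝ) : Prop :=
  (∀ x y, 0 ≤ K x y) ∧ ∀ x, ∑ y, K x y = 1

/-- The family `P : T → Matrix Ω Ω ℝ` is the family of transition kernels `(P^t)_{t ∈ T}` of a
(time-homogeneous) Markov chain on the finite set `Ω`.  Here `T = ℕ` is discrete time
(the continuity requirement is then void) and `T = ℝ≥0` is continuous time. -/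
structure IsChain {T : Type} [AddMonoid T] [TopologicalSpace T] [DecidableEq Ω]
    (P : T → Matrix Ω Ω ℝ) : Prop where
  kernel : ∀ t, IsKernel (P t)
  zero : P 0 = 1
  add : ∀ s t, P (s + t) = P s * P t
  continuous : Continuous P

/-- Monotonicity: `x ≤ y` implies `P^t(x,A) ≤ P^t(y,A)` for every increasing `A` and every `t`. -/
def IsMonotone {T : Type} [PartialOrder Ω] (P : T → Matrix Ω Ω ℝ) : Prop :=
  ∀ t, ∀ x y : Ω, x ≤ y → ∀ A : Finset Ω, IsUpperSet (A : Set Ω) →
    prob (P t) x A ≤ prob (P t) y A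

/-- Reversibility with respect to the probability `π` on `Ω`. -/
def IsReversible {T : Type} (π : Ω → ℝ) (P : T → Matrix Ω Ω ℝ) : Prop :=
  (∀ x, 0 ≤ π x) ∧ ∑ x, π x = 1 ∧ ∀ t, ∀ x y : Ω, π x * P t x y = π y * P t y x

end Defs

/-- The assertion of Q2 for the time set `T` (`T = ℕ`: discrete time, `T = ℝ≥0`: continuous
time): for every monotone reversible chain on a finite partially ordered set with a least and a
greatest element and every time `t`, `‖P^t(x,·) - P^t(y,·)‖_TV` is maximised over all pairs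
`(x, y)` by the pair of extremal states. -/
def Q2Holds (T : Type) [AddMonoid T] [TopologicalSpace T] : Prop :=
  ∀ (Ω : Type) [Fintype Ω] [DecidableEq Ω] [PartialOrder Ω] [BoundedOrder Ω]
    (P : T → Matrix Ω Ω ℝ), IsChain P → IsMonotone P → (∃ π : Ω → ℝ, IsReversible π P) →
    ∀ t, IsGreatest {d : ℝ | ∃ x y : Ω, d = tv (P t) x y} (tv (P t) ⊤ ⊥)

/-- A strong form of the negation of Q2 for the time set `T`: a totally ordered finite state
space, an irreducible monotone chain reversible with respect to a strictly positive probability,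
a time `t` and states `x, y` with
`‖P^t(x,·) - P^t(y,·)‖_TV > ‖P^t(⊤,·) - P^t(⊥,·)‖_TV`. -/
def StrongCounterexample (T : Type) [AddMonoid T] [TopologicalSpace T] : Prop :=
  ∃ (Ω : Type) (_ : Fintype Ω) (_ : LinearOrder Ω) (_ : BoundedOrder Ω)
    (P : T → Matrix Ω Ω ℝ) (π : Ω → ℝ),
    IsChain P ∧ IsMonotone P ∧ IsReversible π P ∧ (∀ x, 0 < π x) ∧
    (∀ x y, ∃ t, 0 < P t x y) ∧
    ∃ (t : T) (x y : Ω), tv (P t) ⊤ ⊥ < tv (P t) x y

/-! ## The four-state kernel -/

/-- The one-step kernel of the counterexample. -/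
noncomputable def K : Matrix (Fin 4) (Fin 4) ℝ :=
  !![7/16, 3/16, 6/16, 0;
     3/16, 7/16, 2/16, 4/16;
     3/16, 1/16, 8/16, 4/16;
     0, 4/16, 8/16, 4/16]

/-- Its reversible probability. -/
noncomputable def w : Fin 4 → ℝ := ![1/5, 1/5, 2/5, 1/5]

/-- A cone of matrices containing all powers of `K`: nonnegative entries, constant row sum `c`,
reversible with respect to `w`, and monotone (expressed through the three nontrivial tails). -/
structure Good (c : ℝ) (M : Matrix (Fin 4) (Fin 4) ℝ) : Prop where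
  nonneg : ∀ x y, 0 ≤ M x y
  sum : ∀ x, M x 0 + M x 1 + M x 2 + M x 3 = c
  rev : ∀ x y, w x * M x y = w y * M y x
  m3 : ∀ x y, x ≤ y → M x 3 ≤ M y 3
  m2 : ∀ x y, x ≤ y → M x 2 + M x 3 ≤ M y 2 + M y 3
  m1 : ∀ x y, x ≤ y → M x 1 + M x 2 + M x 3 ≤ M y 1 + M y 2 + M y 3

theorem K00 : K 0 0 = 7/16 := rfl
theorem K01 : K 0 1 = 3/16 := rfl
theorem K02 : K 0 2 = 6/16 := rfl
theorem K03 : K 0 3 = 0 := rfl
theorem K10 : K 1 0 = 3/16 := rfl
theorem K11 : K 1 1 = 7/16 := rfl
theorem K12 : K 1 2 = 2/16 := rfl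
theorem K13 : K 1 3 = 4/16 := rfl
theorem K20 : K 2 0 = 3/16 := rfl
theorem K21 : K 2 1 = 1/16 := rfl
theorem K22 : K 2 2 = 8/16 := rfl
theorem K23 : K 2 3 = 4/16 := rfl
theorem K30 : K 3 0 = 0 := rfl
theorem K31 : K 3 1 = 4/16 := rfl
theorem K32 : K 3 2 = 8/16 := rfl
theorem K33 : K 3 3 = 4/16 := rfl
theorem w0 : w 0 = 1/5 := rfl
theorem w1 : w 1 = 1/5 := rfl
theorem w2 : w 2 = 2/5 := rfl
theorem w3 : w 3 = 1/5 := rfl

theorem forall4 {p : Fin 4 → Prop} : (∀ x, p x) ↔ p 0 ∧ p 1 ∧ p 2 ∧ p 3 := by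
  constructor
  · intro h; exact ⟨h 0, h 1, h 2, h 3⟩
  · rintro ⟨h0, h1, h2, h3⟩ x
    fin_cases x
    exacts [h0, h1, h2, h3]

theorem good_K : Good 1 K := by
  constructor <;> simp only [forall4, K00, K01, K02, K03, K10, K11, K12, K13, K20, K21, K22, K23,
    K30, K31, K32, K33, w0, w1, w2, w3]
  · norm_num
  · norm_num
  · norm_num
  · refine ⟨⟨?_, ?_, ?_, ?_⟩, ⟨?_, ?_, ?_, ?_⟩, ⟨?_, ?_, ?_, ?_⟩, ⟨?_, ?_, ?_, ?_⟩⟩ <;> intro h <;>
      first | exact absurd h (by decide) | norm_num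
  · refine ⟨⟨?_, ?_, ?_, ?_⟩, ⟨?_, ?_, ?_, ?_⟩, ⟨?_, ?_, ?_, ?_⟩, ⟨?_, ?_, ?_, ?_⟩⟩ <;> intro h <;>
      first | exact absurd h (by decide) | norm_num
  · refine ⟨⟨?_, ?_, ?_, ?_⟩, ⟨?_, ?_, ?_, ?_⟩, ⟨?_, ?_, ?_, ?_⟩, ⟨?_, ?_, ?_, ?_⟩⟩ <;> intro h <;>
      first | exact absurd h (by decide) | norm_num

theorem good_one : Good 1 (1 : Matrix (Fin 4) (Fin 4) ℝ) := by
  have e : ∀ x y : Fin 4, (1 : Matrix (Fin 4) (Fin 4) ℝ) x y = if x = y then 1 else 0 :=
    fun x y => Matrix.one_apply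
  constructor
  · intro x y; rw [e]; split_ifs <;> norm_num
  · simp only [forall4, e]; simp
  · intro x y
    rw [e, e]
    by_cases h : x = y
    · subst h; rfl
    · rw [if_neg h, if_neg (Ne.symm h)]; simp
  · intro x y h
    rw [e, e]
    by_cases hx : x = 3
    · have : y = 3 := by omega
      rw [if_pos hx, if_pos this]
    · rw [if_neg hx]; split_ifs <;> norm_num
  · intro x y h
    simp only [e]
    fin_cases x <;> fin_cases y <;>
      first | exact absurd h (by decide) | norm_num [Fin.ext_iff]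
  · intro x y h
    simp only [e]
    fin_cases x <;> fin_cases y <;>
      first | exact absurd h (by decide) | norm_num [Fin.ext_iff]

/-- Summation by parts for a function on `Fin 4` against a row. -/
theorem row_mul {c : ℝ} {M : Matrix (Fin 4) (Fin 4) ℝ} (hM : Good c M) (f : Fin 4 → ℝ)
    (h01 : f 0 ≤ f 1) (h12 : f 1 ≤ f 2) (h23 : f 2 ≤ f 3) {x y : Fin 4} (hxy : x ≤ y) :
    M x 0 * f 0 + M x 1 * f 1 + M x 2 * f 2 + M x 3 * f 3 ≤
      M y 0 * f 0 + M y 1 * f 1 + M y 2 * f 2 + M y 3 * f 3 := by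
  have s1 := hM.sum x
  have s2 := hM.sum y
  have a3 := mul_le_mul_of_nonneg_right (hM.m3 x y hxy) (sub_nonneg.2 h23)
  have a2 := mul_le_mul_of_nonneg_right (hM.m2 x y hxy) (sub_nonneg.2 h12)
  have a1 := mul_le_mul_of_nonneg_right (hM.m1 x y hxy) (sub_nonneg.2 h01)
  have e1 : M x 0 = c - M x 1 - M x 2 - M x 3 := by linarith
  have e2 : M y 0 = c - M y 1 - M y 2 - M y 3 := by linarith
  rw [e1, e2]
  nlinarith [a1, a2, a3]

theorem mul_entry (M N : Matrix (Fin 4) (Fin 4) ℝ) (x y : Fin 4) :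
    (M * N) x y = M x 0 * N 0 y + M x 1 * N 1 y + M x 2 * N 2 y + M x 3 * N 3 y := by
  rw [Matrix.mul_apply, Fin.sum_univ_four]

theorem good_mul {c d : ℝ} {M N : Matrix (Fin 4) (Fin 4) ℝ} (hM : Good c M) (hN : Good d N)
    (hc : M * N = N * M) :
    Good (c * d) (M * N) := by
  constructor
  · intro x y
    rw [mul_entry]
    have := fun z => mul_nonneg (hM.nonneg x z) (hN.nonneg z y)
    linarith [this 0, this 1, this 2, this 3]
  · intro x
    simp only [mul_entry]
    have h0 := hN.sum 0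
    have h1 := hN.sum 1
    have h2 := hN.sum 2
    have h3 := hN.sum 3
    have hs := hM.sum x
    calc _ = M x 0 * (N 0 0 + N 0 1 + N 0 2 + N 0 3) + M x 1 * (N 1 0 + N 1 1 + N 1 2 + N 1 3)
          + M x 2 * (N 2 0 + N 2 1 + N 2 2 + N 2 3) + M x 3 * (N 3 0 + N 3 1 + N 3 2 + N 3 3) := by
            ring
      _ = (M x 0 + M x 1 + M x 2 + M x 3) * d := by rw [h0, h1, h2, h3]; ring
      _ = c * d := by rw [hs]
  · intro x y
    have : (M * N) y x = (N * M) y x := by rw [hc]
    rw [this, mul_entry, mul_entry]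
    have h := fun z => hM.rev x z
    have h' := fun z => hN.rev z y
    have key : ∀ z, w x * (M x z * N z y) = w y * (N y z * M z x) := by
      intro z
      calc w x * (M x z * N z y) = (w x * M x z) * N z y := by ring
        _ = (w z * M z x) * N z y := by rw [h z]
        _ = (w z * N z y) * M z x := by ring
        _ = (w y * N y z) * M z x := by rw [h' z]
        _ = _ := by ring
    linear_combination key 0 + key 1 + key 2 + key 3
  · intro x y hxy
    rw [mul_entry, mul_entry]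
    exact row_mul hM (fun z => N z 3) (hN.m3 0 1 (by decide)) (hN.m3 1 2 (by decide))
      (hN.m3 2 3 (by decide)) hxy
  · intro x y hxy
    simp only [mul_entry]
    have := row_mul hM (fun z => N z 2 + N z 3) (hN.m2 0 1 (by decide)) (hN.m2 1 2 (by decide))
      (hN.m2 2 3 (by decide)) hxy
    linarith
  · intro x y hxy
    simp only [mul_entry]
    have := row_mul hM (fun z => N z 1 + N z 2 + N z 3) (hN.m1 0 1 (by decide))
      (hN.m1 1 2 (by decide)) (hN.m1 2 3 (by decide)) hxy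
    linarith

theorem good_pow (n : ℕ) : Good 1 (K ^ n) := by
  induction n with
  | zero => simpa using good_one
  | succ n ih =>
    have := good_mul ih good_K (by rw [← pow_succ, ← pow_succ'])
    rwa [one_mul, ← pow_succ] at this

theorem upper_sets : ∀ A : Finset (Fin 4), (∀ x y : Fin 4, x ≤ y → x ∈ A → y ∈ A) →
    A = ∅ ∨ A = {3} ∨ A = {2, 3} ∨ A = {1, 2, 3} ∨ A = {0, 1, 2, 3} := by
  decide

theorem Good.mono {c : ℝ} {M : Matrix (Fin 4) (Fin 4) ℝ} (hM : Good c M) {x y : Fin 4}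
    (hxy : x ≤ y) (A : Finset (Fin 4)) (hA : IsUpperSet (A : Set (Fin 4))) :
    prob M x A ≤ prob M y A := by
  have hA' : ∀ x y : Fin 4, x ≤ y → x ∈ A → y ∈ A := fun a b hab ha => by
    exact_mod_cast hA hab (by exact_mod_cast ha)
  unfold prob
  rcases upper_sets A hA' with rfl | rfl | rfl | rfl | rfl
  · simp
  · simpa using hM.m3 x y hxy
  · have := hM.m2 x y hxy
    simpa using this
  · have := hM.m1 x y hxy
    simpa [add_assoc] using this
  · have h1 := hM.sum x
    have h2 := hM.sum y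
    have : ∀ z, ∑ v ∈ ({0, 1, 2, 3} : Finset (Fin 4)), M z v = M z 0 + M z 1 + M z 2 + M z 3 := by
      intro z
      simp [add_assoc]
    rw [this, this, h1, h2]

theorem Good.kernel {M : Matrix (Fin 4) (Fin 4) ℝ} (hM : Good 1 M) : IsKernel M :=
  ⟨hM.nonneg, fun x => by rw [Fin.sum_univ_four]; exact hM.sum x⟩

/-! ## Discrete time -/

/-- The discrete-time chain `P^n = K^n`. -/
noncomputable def Pd (n : ℕ) : Matrix (Fin 4) (Fin 4) ℝ := K ^ n

theorem w_prob : (∀ x, 0 < w x) ∧ ∑ x, w x = 1 := by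
  constructor
  · simp only [forall4, w0, w1, w2, w3]; norm_num
  · rw [Fin.sum_univ_four, w0, w1, w2, w3]; norm_num

theorem prob_eq (M : Matrix (Fin 4) (Fin 4) ℝ) (x : Fin 4) (A : Finset (Fin 4)) :
    prob M x A = (if (0 : Fin 4) ∈ A then M x 0 else 0) + (if (1 : Fin 4) ∈ A then M x 1 else 0)
      + (if (2 : Fin 4) ∈ A then M x 2 else 0) + (if (3 : Fin 4) ∈ A then M x 3 else 0) := by
  unfold prob
  rw [← Fin.sum_univ_four (fun z => if z ∈ A then M x z else 0), Finset.sum_ite_mem,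
    Finset.univ_inter]

theorem le_tv {Ω : Type} [Fintype Ω] (M : Matrix Ω Ω ℝ) (x y : Ω) (A : Finset Ω) :
    prob M x A - prob M y A ≤ tv M x y :=
  (le_abs_self _).trans
    (Finset.le_sup' (f := fun A => |prob M x A - prob M y A|) (Finset.mem_univ A))

theorem tv_le {Ω : Type} [Fintype Ω] {M : Matrix Ω Ω ℝ} {x y : Ω} {d : ℝ}
    (h : ∀ A, |prob M x A - prob M y A| ≤ d) : tv M x y ≤ d :=
  Finset.sup'_le _ _ fun A _ => h A

theorem diff_le (A : Finset (Fin 4)) :
    |prob K 3 A - prob K 0 A| ≤ 7 / 16 := by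
  rw [prob_eq, prob_eq, K00, K01, K02, K03, K30, K31, K32, K33, abs_le]
  constructor <;> split_ifs <;> norm_num

theorem discrete : StrongCounterexample ℕ := by
  refine ⟨Fin 4, inferInstance, inferInstance, inferInstance, Pd, w, ⟨?_, ?_, ?_, ?_⟩, ?_,
    ⟨fun x => (w_prob.1 x).le, w_prob.2, ?_⟩, w_prob.1, ?_, 1, 0, 1, ?_⟩
  · exact fun n => (good_pow n).kernel
  · simp [Pd]
  · intro s t; exact pow_add K s t
  · exact continuous_of_discreteTopology
  · intro n x y hxy A hA; exact (good_pow n).mono hxy A hA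
  · intro n x y; exact (good_pow n).rev x y
  · intro x y
    refine ⟨2, ?_⟩
    show 0 < (K ^ 2) x y
    rw [pow_two, mul_entry]
    revert x y
    simp only [forall4, K00, K01, K02, K03, K10, K11, K12, K13, K20, K21, K22, K23,
      K30, K31, K32, K33]
    norm_num
  · have h1 : tv (Pd 1) (⊤ : Fin 4) ⊥ ≤ 7 / 16 := by
      refine tv_le fun A => ?_
      have : Pd 1 = K := pow_one K
      rw [this]
      exact diff_le A
    have h2 : 8 / 16 ≤ tv (Pd 1) 0 1 := by
      refine le_trans ?_ (le_tv (Pd 1) 0 1 {0, 2})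
      have : Pd 1 = K := pow_one K
      rw [this, prob_eq, prob_eq, K00, K01, K02, K03, K10, K11, K12, K13]
      simp
      norm_num
    exact lt_of_le_of_lt h1 (lt_of_lt_of_le (by norm_num) h2)

/-! ## Continuous time -/

/-- `exp(tK)`. -/
noncomputable def E (t : ℝ) : Matrix (Fin 4) (Fin 4) ℝ := NormedSpace.exp (t • K)

/-- The coefficients of the exponential series. -/
noncomputable def cf (t : ℝ) (n : ℕ) : ℝ := (n.factorial : ℝ)⁻¹ * t ^ n

theorem cf_nonneg {t : ℝ} (ht : 0 ≤ t) (n : ℕ) : 0 ≤ cf t n := by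
  unfold cf; positivity

set_option backward.isDefEq.respectTransparency false in
open scoped Matrix.Norms.Operator in
theorem hasSum_E (t : ℝ) : HasSum (fun n : ℕ => cf t n • K ^ n) (E t) := by
  have h := NormedSpace.exp_series_hasSum_exp' (𝕂 := ℝ) (t • K)
  have e : (fun n : ℕ => cf t n • K ^ n) = fun n : ℕ => ((n.factorial : ℝ)⁻¹) • (t • K) ^ n := by
    funext n
    rw [smul_pow, smul_smul, cf]
  rw [e]
  exact h

theorem hasSum_entry (t : ℝ) (x y : Fin 4) :
    HasSum (fun n : ℕ => cf t n * (K ^ n) x y) (E t x y) := by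
  have h := hasSum_E t
  have h1 := Pi.hasSum.1 (Pi.hasSum.1 h x) y
  simpa using h1

theorem hasSum_exp (t : ℝ) : HasSum (fun n : ℕ => cf t n) (Real.exp t) := by
  have h := NormedSpace.exp_series_hasSum_exp' (𝕂 := ℝ) t
  rw [← Real.exp_eq_exp_ℝ] at h
  simpa [cf, smul_eq_mul] using h

theorem good_E {t : ℝ} (ht : 0 ≤ t) : Good (Real.exp t) (E t) := by
  constructor
  · intro x y
    exact (hasSum_entry t x y).nonneg fun n => mul_nonneg (cf_nonneg ht n) ((good_pow n).nonneg x y)
  · intro x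
    have h := (((hasSum_entry t x 0).add (hasSum_entry t x 1)).add (hasSum_entry t x 2)).add
      (hasSum_entry t x 3)
    refine h.unique ?_
    have e : (fun n : ℕ => cf t n * (K ^ n) x 0 + cf t n * (K ^ n) x 1 + cf t n * (K ^ n) x 2 +
        cf t n * (K ^ n) x 3) = fun n => cf t n := by
      funext n
      have := (good_pow n).sum x
      linear_combination cf t n * this
    rw [e]
    exact hasSum_exp t
  · intro x y
    refine ((hasSum_entry t x y).mul_left (w x)).unique ?_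
    have e : (fun n : ℕ => w x * (cf t n * (K ^ n) x y)) =
        fun n => w y * (cf t n * (K ^ n) y x) := by
      funext n
      linear_combination cf t n * (good_pow n).rev x y
    rw [e]
    exact (hasSum_entry t y x).mul_left (w y)
  · intro x y hxy
    refine hasSum_le (fun n => ?_) (hasSum_entry t x 3) (hasSum_entry t y 3)
    exact mul_le_mul_of_nonneg_left ((good_pow n).m3 x y hxy) (cf_nonneg ht n)
  · intro x y hxy
    refine hasSum_le (fun n => ?_) ((hasSum_entry t x 2).add (hasSum_entry t x 3))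
      ((hasSum_entry t y 2).add (hasSum_entry t y 3))
    have := mul_le_mul_of_nonneg_left ((good_pow n).m2 x y hxy) (cf_nonneg ht n)
    linarith
  · intro x y hxy
    refine hasSum_le (fun n => ?_)
      (((hasSum_entry t x 1).add (hasSum_entry t x 2)).add (hasSum_entry t x 3))
      (((hasSum_entry t y 1).add (hasSum_entry t y 2)).add (hasSum_entry t y 3))
    have := mul_le_mul_of_nonneg_left ((good_pow n).m1 x y hxy) (cf_nonneg ht n)
    linarith

/-- The continuous-time chain `P^t = exp(t(K - 1))`. -/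
noncomputable def Pc (t : ℝ≥0) : Matrix (Fin 4) (Fin 4) ℝ :=
  NormedSpace.exp ((t : ℝ) • (K - 1))

theorem Pc_eq (t : ℝ≥0) : Pc t = Real.exp (-(t : ℝ)) • E t := by
  have h1 : (t : ℝ) • (K - 1) = (t : ℝ) • K + Matrix.diagonal (fun _ : Fin 4 => -(t : ℝ)) := by
    rw [smul_sub, sub_eq_add_neg]
    congr 1
    ext i j
    by_cases h : i = j
    · subst h; simp
    · simp [Matrix.one_apply_ne h, Matrix.diagonal_apply_ne _ h]
  have hc : Commute ((t : ℝ) • K) (Matrix.diagonal (fun _ : Fin 4 => -(t : ℝ))) := by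
    show _ * _ = _ * _
    ext i j
    rw [Matrix.mul_diagonal, Matrix.diagonal_mul, mul_comm]
  rw [Pc, h1, Matrix.exp_add_of_commute _ _ hc, Matrix.exp_diagonal]
  ext i j
  rw [Matrix.mul_diagonal, Matrix.smul_apply, E, smul_eq_mul, mul_comm]
  congr 1
  rw [Pi.coe_exp, Real.exp_eq_exp_ℝ]

theorem good_Pc (t : ℝ≥0) : Good 1 (Pc t) := by
  have h := good_E (t := (t : ℝ)) t.2
  have he := (Real.exp_pos (-(t : ℝ))).le
  have e : ∀ x y, Pc t x y = Real.exp (-(t : ℝ)) * E t x y := fun x y => by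
    rw [Pc_eq]; rfl
  constructor
  · intro x y; rw [e]; exact mul_nonneg he (h.nonneg x y)
  · intro x
    simp only [e]
    rw [← mul_add, ← mul_add, ← mul_add, h.sum x, ← Real.exp_add]
    simp
  · intro x y
    rw [e, e]
    linear_combination Real.exp (-(t : ℝ)) * h.rev x y
  · intro x y hxy
    rw [e, e]
    exact mul_le_mul_of_nonneg_left (h.m3 x y hxy) he
  · intro x y hxy
    simp only [e]
    have := mul_le_mul_of_nonneg_left (h.m2 x y hxy) he
    linarith
  · intro x y hxy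
    simp only [e]
    have := mul_le_mul_of_nonneg_left (h.m1 x y hxy) he
    linarith

set_option backward.isDefEq.respectTransparency false in
open scoped Matrix.Norms.Operator in
theorem continuous_Pc : Continuous Pc := by
  have h : Continuous (NormedSpace.exp : Matrix (Fin 4) (Fin 4) ℝ → Matrix (Fin 4) (Fin 4) ℝ) :=
    NormedSpace.exp_continuous
  exact h.comp (NNReal.continuous_coe.smul continuous_const)

theorem Pc_add (s t : ℝ≥0) : Pc (s + t) = Pc s * Pc t := by
  unfold Pc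
  rw [← Matrix.exp_add_of_commute]
  · rw [NNReal.coe_add, add_smul]
  · exact ((Commute.refl (K - 1)).smul_left _).smul_right _

/-- First-order lower bound. -/
theorem E_ge {t : ℝ} (ht : 0 ≤ t) (x y : Fin 4) :
    (1 : Matrix (Fin 4) (Fin 4) ℝ) x y + t * K x y ≤ E t x y := by
  have h := sum_le_hasSum (Finset.range 2)
    (fun n _ => mul_nonneg (cf_nonneg ht n) ((good_pow n).nonneg x y)) (hasSum_entry t x y)
  rw [Finset.sum_range_succ, Finset.sum_range_one] at h
  simpa [cf] using h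

theorem prob_compl {c : ℝ} {M : Matrix (Fin 4) (Fin 4) ℝ} (h : Good c M) (x : Fin 4)
    (A : Finset (Fin 4)) : prob M x A + prob M x Aᶜ = c := by
  rw [prob, prob, Finset.sum_add_sum_compl, Fin.sum_univ_four]
  exact h.sum x

/-- `1 + tK` -/
noncomputable def L (t : ℝ) : Matrix (Fin 4) (Fin 4) ℝ := fun x y =>
  (1 : Matrix (Fin 4) (Fin 4) ℝ) x y + t * K x y

theorem good_L_sum (t : ℝ) (x : Fin 4) (A : Finset (Fin 4)) :
    prob (L t) x A + prob (L t) x Aᶜ = 1 + t := by
  rw [prob, prob, Finset.sum_add_sum_compl, Fin.sum_univ_four]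
  have h1 := good_one.sum x
  have h2 := good_K.sum x
  unfold L
  linear_combination h1 + t * h2

theorem prob_E_ge {t : ℝ} (ht : 0 ≤ t) (x : Fin 4) (A : Finset (Fin 4)) :
    prob (L t) x A ≤ prob (E t) x A :=
  Finset.sum_le_sum fun y _ => E_ge ht x y

theorem prob_E_le {t : ℝ} (ht : 0 ≤ t) (ht1 : t ≤ 1) (x : Fin 4) (A : Finset (Fin 4)) :
    prob (E t) x A ≤ prob (L t) x A + t ^ 2 := by
  have h1 := prob_compl (good_E ht) x A
  have h2 := good_L_sum t x A
  have h3 := prob_E_ge ht x Aᶜ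
  have h4 := Real.abs_exp_sub_one_sub_id_le (x := t) (by rw [abs_of_nonneg ht]; exact ht1)
  have h5 := le_of_abs_le h4
  linarith

theorem prob_L (t : ℝ) (x : Fin 4) (A : Finset (Fin 4)) :
    prob (L t) x A = (if x ∈ A then 1 else 0) + t * prob K x A := by
  unfold prob L
  rw [Finset.sum_add_distrib, Finset.mul_sum]
  congr 1
  simp [Matrix.one_apply]

theorem prob_Pc (t : ℝ≥0) (x : Fin 4) (A : Finset (Fin 4)) :
    prob (Pc t) x A = Real.exp (-(t : ℝ)) * prob (E t) x A := by
  unfold prob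
  rw [Pc_eq, Finset.mul_sum]
  rfl

theorem tv_top_bot (t : ℝ≥0) (ht1 : (t : ℝ) ≤ 1) :
    tv (Pc t) (3 : Fin 4) 0 ≤ Real.exp (-(t : ℝ)) * (1 + 7 / 16 * t + (t : ℝ) ^ 2) := by
  have ht : 0 ≤ (t : ℝ) := t.2
  refine tv_le fun A => ?_
  rw [prob_Pc, prob_Pc, ← mul_sub, abs_mul, abs_of_pos (Real.exp_pos _)]
  refine mul_le_mul_of_nonneg_left ?_ (Real.exp_pos _).le
  have a1 := prob_E_ge ht 3 A
  have a2 := prob_E_ge ht 0 A
  have a3 := prob_E_le ht ht1 3 A
  have a4 := prob_E_le ht ht1 0 A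
  rw [prob_L] at a1 a2 a3 a4
  have hd := diff_le A
  rw [abs_le] at hd
  have b1 : (t : ℝ) * (prob K 3 A - prob K 0 A) ≤ t * (7 / 16) :=
    mul_le_mul_of_nonneg_left hd.2 ht
  have b2 : (t : ℝ) * (-(7 / 16)) ≤ t * (prob K 3 A - prob K 0 A) :=
    mul_le_mul_of_nonneg_left hd.1 ht
  rw [abs_le]
  have c1 : (0 : ℝ) ≤ (if (3 : Fin 4) ∈ A then 1 else 0) := by split_ifs <;> norm_num
  have c2 : (if (3 : Fin 4) ∈ A then (1 : ℝ) else 0) ≤ 1 := by split_ifs <;> norm_num
  have c3 : (0 : ℝ) ≤ (if (0 : Fin 4) ∈ A then 1 else 0) := by split_ifs <;> norm_num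
  have c4 : (if (0 : Fin 4) ∈ A then (1 : ℝ) else 0) ≤ 1 := by split_ifs <;> norm_num
  constructor <;> nlinarith

theorem tv_zero_one (t : ℝ≥0) (ht1 : (t : ℝ) ≤ 1) :
    Real.exp (-(t : ℝ)) * (1 + 1 / 2 * t - (t : ℝ) ^ 2) ≤ tv (Pc t) (0 : Fin 4) 1 := by
  have ht : 0 ≤ (t : ℝ) := t.2
  refine le_trans ?_ (le_tv (Pc t) 0 1 {0, 2})
  rw [prob_Pc, prob_Pc, ← mul_sub]
  refine mul_le_mul_of_nonneg_left ?_ (Real.exp_pos _).le
  have a1 := prob_E_ge ht 0 {0, 2}
  have a4 := prob_E_le ht ht1 1 {0, 2}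
  rw [prob_L] at a1 a4
  have e1 : prob K 0 {0, 2} = 13 / 16 := by
    rw [prob_eq, K00, K01, K02, K03]; simp; norm_num
  have e2 : prob K 1 {0, 2} = 5 / 16 := by
    rw [prob_eq, K10, K11, K12, K13]; simp; norm_num
  rw [e1, if_pos (by decide)] at a1
  rw [e2, if_neg (by decide)] at a4
  linarith

theorem continuous_time : StrongCounterexample ℝ≥0 := by
  refine ⟨Fin 4, inferInstance, inferInstance, inferInstance, Pc, w, ⟨?_, ?_, ?_, ?_⟩, ?_,
    ⟨fun x => (w_prob.1 x).le, w_prob.2, ?_⟩, w_prob.1, ?_, 1 / 64, 0, 1, ?_⟩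
  · exact fun t => (good_Pc t).kernel
  · simp [Pc, NormedSpace.exp_zero]
  · exact Pc_add
  · exact continuous_Pc
  · intro t x y hxy A hA; exact (good_Pc t).mono hxy A hA
  · intro t x y; exact (good_Pc t).rev x y
  · intro x y
    refine ⟨1, ?_⟩
    rw [Pc_eq]
    show 0 < Real.exp _ * E _ x y
    refine mul_pos (Real.exp_pos _) ?_
    have h := sum_le_hasSum {2}
      (fun n _ => mul_nonneg (cf_nonneg (t := ((1 : ℝ≥0) : ℝ)) (by simp) n)
        ((good_pow n).nonneg x y)) (hasSum_entry _ x y)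
    refine lt_of_lt_of_le ?_ h
    rw [Finset.sum_singleton]
    refine mul_pos (by unfold cf; positivity) ?_
    rw [pow_two, mul_entry]
    revert x y
    simp only [forall4, K00, K01, K02, K03, K10, K11, K12, K13, K20, K21, K22, K23,
      K30, K31, K32, K33]
    norm_num
  · have e : (((1 / 64 : ℝ≥0)) : ℝ) = 1 / 64 := by simp
    have h1 := tv_top_bot (1 / 64) (by rw [e]; norm_num)
    have h2 := tv_zero_one (1 / 64) (by rw [e]; norm_num)
    refine lt_of_le_of_lt h1 (lt_of_lt_of_le ?_ h2)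
    refine mul_lt_mul_of_pos_left ?_ (Real.exp_pos _)
    rw [e]
    norm_num

theorem not_Q2 {T : Type} [AddMonoid T] [TopologicalSpace T] (h : StrongCounterexample T) :
    ¬ Q2Holds T := by
  rintro hQ
  obtain ⟨Ω, i1, i2, i3, P, π, hc, hm, hr, -, -, t, x, y, hlt⟩ := h
  have := (hQ Ω P hc hm ⟨π, hr⟩ t).2 ⟨x, y, rfl⟩
  exact absurd hlt (not_lt.2 this)

/-- **Q2 is false**, in discrete time and in continuous time, and in both cases the
counterexample can be taken irreducible, on a totally ordered state space, with a strictly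
positive reversible probability. -/
theorem result :
    (¬ Q2Holds ℕ ∧ StrongCounterexample ℕ) ∧ (¬ Q2Holds ℝ≥0 ∧ StrongCounterexample ℝ≥0) :=
  ⟨⟨not_Q2 discrete, discrete⟩, ⟨not_Q2 continuous_time, continuous_time⟩⟩

end Pool.Agent.Results.MP_199736_pr.Q2Counterexample
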